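import Pool.Agent.Helper25.LS.Defs2

/-! # LS, packet LP: the parallelogram defect of the blocks -/

set_option autoImplicit false

open Filter Topology Module
open scoped ENNReal NNReal

noncomputable section

namespace Pool.Agent.Helper10.LS

open Pool.Agent.Helper25.LS

theorem mid (u v q : ℝ) (hu : 0 ≤ u) (hv : 0 ≤ v) (hq : 1 ≤ q) :
    (1 / 2 * u + 1 / 2 * v) ^ q ≤ 1 / 2 * u ^ q + 1 / 2 * v ^ q := by
  obtain ⟨-, h1⟩ := convexOn_rpow hq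
  have h := h1 (show u ∈ Set.Ici (0 : ℝ) from hu) (show v ∈ Set.Ici (0 : ℝ) from hv)
    (by norm_num : (0 : ℝ) ≤ 1 / 2) (by norm_num : (0 : ℝ) ≤ 1 / 2) (by norm_num)
  simpa only [smul_eq_mul] using h

/-- The Clarkson inequalities for complex numbers. -/
theorem clark (a b : ℂ) (p : ℝ) (hp : 2 ≤ p) :
    2 * (‖a‖ ^ p + ‖b‖ ^ p) ≤ ‖a + b‖ ^ p + ‖a - b‖ ^ p ∧
    ‖a + b‖ ^ p + ‖a - b‖ ^ p ≤ 2 ^ (p - 1) * (‖a‖ ^ p + ‖b‖ ^ p) := by
  set q : ℝ := p / 2 with hq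
  have hq1 : 1 ≤ q := by rw [hq]; linarith
  have hsq : ∀ z : ℂ, ‖z‖ ^ p = (‖z‖ ^ 2) ^ q := by
    intro z
    rw [← Real.rpow_natCast, ← Real.rpow_mul (norm_nonneg z)]
    congr 1
    rw [hq]
    push_cast
    ring
  have hpar : ‖a + b‖ ^ 2 + ‖a - b‖ ^ 2 = 2 * (‖a‖ ^ 2 + ‖b‖ ^ 2) := by
    have := parallelogram_law_with_norm ℝ a b
    nlinarith [this]
  rw [hsq a, hsq b, hsq (a + b), hsq (a - b)]
  have hu : 0 ≤ ‖a + b‖ ^ 2 := by positivity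
  have hv : 0 ≤ ‖a - b‖ ^ 2 := by positivity
  have ha : 0 ≤ ‖a‖ ^ 2 := by positivity
  have hb : 0 ≤ ‖b‖ ^ 2 := by positivity
  set u := ‖a + b‖ ^ 2
  set v := ‖a - b‖ ^ 2
  set α := ‖a‖ ^ 2
  set β := ‖b‖ ^ 2
  constructor
  · have h1 : α ^ q + β ^ q ≤ (α + β) ^ q := Real.add_rpow_le_rpow_add ha hb hq1
    have h2 : (α + β) ^ q ≤ 1 / 2 * u ^ q + 1 / 2 * v ^ q := by
      have h3 := mid u v q hu hv hq1
      have h4 : 1 / 2 * u + 1 / 2 * v = α + β := by linarith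
      rwa [h4] at h3
    linarith
  · have h1 : u ^ q + v ^ q ≤ (u + v) ^ q := Real.add_rpow_le_rpow_add hu hv hq1
    have h2 : (α + β) ^ q ≤ 2 ^ (q - 1) * (α ^ q + β ^ q) := by
      have h3 := mid α β q ha hb hq1
      have h4 : (α + β) ^ q = 2 ^ q * (1 / 2 * α + 1 / 2 * β) ^ q := by
        rw [← Real.mul_rpow (by norm_num) (by positivity)]
        congr 1
        ring
      have h5 : (2 : ℝ) ^ (q - 1) = 2 ^ q * (1 / 2) := by
        rw [Real.rpow_sub (by norm_num), Real.rpow_one]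
        ring
      rw [h4, h5, mul_assoc]
      refine mul_le_mul_of_nonneg_left ?_ (by positivity)
      linarith
    have h3 : (u + v) ^ q = 2 ^ q * (α + β) ^ q := by
      rw [hpar, Real.mul_rpow (by norm_num) (by positivity)]
    have h4 : (2 : ℝ) ^ (p - 1) = 2 ^ q * 2 ^ (q - 1) := by
      rw [← Real.rpow_add (by norm_num)]
      congr 1
      rw [hq]
      ring
    rw [h3] at h1
    refine h1.trans ?_
    rw [h4, mul_assoc]
    exact mul_le_mul_of_nonneg_left h2 (by positivity)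

/-- `a ^ (2 + t) → a ^ 2` uniformly on `[0, 2]`. -/
theorem unif (η : ℝ) (hη : 0 < η) : ∃ t₀ : ℝ, 0 < t₀ ∧ ∀ t : ℝ, 0 ≤ t → t ≤ t₀ →
    ∀ a : ℝ, 0 ≤ a → a ≤ 2 → |a ^ (2 + t) - a ^ 2| ≤ η := by
  have hc : ContinuousOn (fun q : ℝ × ℝ => q.1 ^ (2 + q.2))
      (Set.Icc (0 : ℝ) 2 ×ˢ Set.Icc (0 : ℝ) 1) := by
    intro q hq
    refine ContinuousAt.continuousWithinAt ?_
    refine ContinuousAt.rpow continuousAt_fst (continuousAt_const.add continuousAt_snd) ?_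
    right
    have := hq.2.1
    linarith
  have hu := (isCompact_Icc.prod isCompact_Icc).uniformContinuousOn_of_continuous hc
  rw [Metric.uniformContinuousOn_iff] at hu
  obtain ⟨d, hd, hu⟩ := hu η hη
  refine ⟨min (d / 2) 1, by positivity, fun t ht ht0 a ha ha2 => ?_⟩
  have ht1 : t ≤ 1 := ht0.trans (min_le_right _ _)
  have ht2 : t ≤ d / 2 := ht0.trans (min_le_left _ _)
  have h1 := hu (a, t) ⟨⟨ha, ha2⟩, ⟨ht, ht1⟩⟩ (a, 0) ⟨⟨ha, ha2⟩, ⟨le_rfl, zero_le_one⟩⟩ (by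
    rw [Prod.dist_eq]
    simp only [dist_self, Real.dist_eq, sub_zero, abs_of_nonneg ht]
    rw [max_lt_iff]
    exact ⟨hd, by linarith⟩)
  rw [Real.dist_eq] at h1
  simp only [add_zero] at h1
  have h2 : a ^ (2 : ℝ) = a ^ 2 := by
    rw [← Real.rpow_natCast]
    norm_num
  rw [h2] at h1
  exact h1.le

/-- The real inequality. -/
theorem real_lem (δ : ℝ) (hδ : 0 < δ) : ∃ t₀ : ℝ, 0 < t₀ ∧ ∀ t : ℝ, 0 ≤ t → t ≤ t₀ →
    ∀ X Y U V : ℝ, 0 ≤ X → 0 ≤ Y → 0 ≤ U → 0 ≤ V → X ^ 2 + Y ^ 2 = 1 → U ≤ 2 → V ≤ 2 →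
    2 * (X ^ (2 + t) + Y ^ (2 + t)) ≤ U ^ (2 + t) + V ^ (2 + t) →
    U ^ (2 + t) + V ^ (2 + t) ≤ 2 ^ (2 + t - 1) * (X ^ (2 + t) + Y ^ (2 + t)) →
    |U ^ 2 + V ^ 2 - 2| ≤ δ := by
  set η : ℝ := min (δ / 9) 1 with hη
  have hη0 : 0 < η := by positivity
  have hη1 : η ≤ 1 := min_le_right _ _
  have hη9 : 9 * η ≤ δ := by
    have := min_le_left (δ / 9) 1
    rw [← hη] at this
    linarith
  obtain ⟨t₀, ht₀, hu⟩ := unif η hη0
  refine ⟨t₀, ht₀, fun t ht htt X Y U V hX hY hU hV h1 hU2 hV2 hl hr => ?_⟩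
  have hX2 : X ≤ 2 := by nlinarith
  have hY2 : Y ≤ 2 := by nlinarith
  have eX := abs_le.1 (hu t ht htt X hX hX2)
  have eY := abs_le.1 (hu t ht htt Y hY hY2)
  have eU := abs_le.1 (hu t ht htt U hU hU2)
  have eV := abs_le.1 (hu t ht htt V hV hV2)
  have e2 := abs_le.1 (hu t ht htt 2 (by norm_num) le_rfl)
  have h3 : (2 : ℝ) ^ (2 + t - 1) = 2 ^ (2 + t) / 2 := by
    rw [Real.rpow_sub (by norm_num), Real.rpow_one]
  rw [h3] at hr
  have h4 : (2 : ℝ) ^ (2 + t) / 2 ≤ 2 + η / 2 := by linarith [e2.2]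
  have h5 : 0 ≤ X ^ (2 + t) + Y ^ (2 + t) := by positivity
  have h6 : X ^ (2 + t) + Y ^ (2 + t) ≤ 1 + 2 * η := by linarith [eX.2, eY.2]
  have h7 : (2 : ℝ) ^ (2 + t) / 2 * (X ^ (2 + t) + Y ^ (2 + t)) ≤ (2 + η / 2) * (1 + 2 * η) :=
    mul_le_mul h4 h6 h5 (by linarith)
  have h8 : (2 + η / 2) * (1 + 2 * η) ≤ 2 + 6 * η := by nlinarith
  rw [abs_le]
  constructor
  · linarith [eX.1, eY.1, eU.2, eV.2]
  · linarith [eU.1, eV.1]

theorem two_add_toReal (t : ℝ≥0) : (2 + (t : ℝ≥0∞)).toReal = 2 + (t : ℝ) := by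
  rw [ENNReal.toReal_add (by norm_num) ENNReal.coe_ne_top]
  simp

theorem norm_pow (t : ℝ≥0) (N : ℕ) (x : Blk t N) :
    ‖x‖ ^ (2 + (t : ℝ)) = ∑ i, ‖x i‖ ^ (2 + (t : ℝ)) := by
  have h0 : 0 < (2 + (t : ℝ≥0∞)).toReal := by
    rw [two_add_toReal]
    have := t.coe_nonneg
    linarith
  rw [PiLp.norm_eq_sum h0, two_add_toReal, ← Real.rpow_mul
    (Finset.sum_nonneg fun i _ => Real.rpow_nonneg (norm_nonneg _) _), one_div,
    inv_mul_cancel₀, Real.rpow_one]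
  have := t.coe_nonneg
  linarith

/-- LP -/
theorem lp : S_LP := by
  intro δ hδ
  obtain ⟨t₀, ht₀, hR⟩ := real_lem δ hδ
  refine ⟨⟨t₀, ht₀.le⟩, ht₀, fun t N ht x y => ?_⟩
  have htr : (t : ℝ) ≤ t₀ := ht
  have ht0 : (0 : ℝ) ≤ t := t.coe_nonneg
  set X := ‖x‖ with hX
  set Y := ‖y‖ with hY
  set U := ‖x + y‖ with hU
  set V := ‖x - y‖ with hV
  have hX0 : 0 ≤ X := norm_nonneg _
  have hY0 : 0 ≤ Y := norm_nonneg _
  have hU0 : 0 ≤ U := norm_nonneg _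
  have hV0 : 0 ≤ V := norm_nonneg _
  have hUt : U ≤ X + Y := norm_add_le _ _
  have hVt : V ≤ X + Y := norm_sub_le _ _
  have hp : (2 : ℝ) ≤ 2 + t := by linarith
  have h1 : 2 * (X ^ (2 + (t : ℝ)) + Y ^ (2 + (t : ℝ))) ≤
      U ^ (2 + (t : ℝ)) + V ^ (2 + (t : ℝ)) := by
    rw [hX, hY, hU, hV, norm_pow, norm_pow, norm_pow, norm_pow, ← Finset.sum_add_distrib,
      ← Finset.sum_add_distrib, Finset.mul_sum]
    exact Finset.sum_le_sum fun i _ => (clark (x i) (y i) _ hp).1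
  have h2 : U ^ (2 + (t : ℝ)) + V ^ (2 + (t : ℝ)) ≤
      2 ^ (2 + (t : ℝ) - 1) * (X ^ (2 + (t : ℝ)) + Y ^ (2 + (t : ℝ))) := by
    rw [hX, hY, hU, hV, norm_pow, norm_pow, norm_pow, norm_pow, ← Finset.sum_add_distrib,
      ← Finset.sum_add_distrib, Finset.mul_sum]
    exact Finset.sum_le_sum fun i _ => (clark (x i) (y i) _ hp).2
  rcases (add_nonneg (sq_nonneg X) (sq_nonneg Y)).eq_or_lt with h0 | h0
  · have hXz : X = 0 := by nlinarith [sq_nonneg X, sq_nonneg Y]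
    have hYz : Y = 0 := by nlinarith [sq_nonneg X, sq_nonneg Y]
    have hUz : U = 0 := by linarith
    have hVz : V = 0 := by linarith
    rw [hXz, hYz, hUz, hVz]
    simp
  · set S : ℝ := Real.sqrt (X ^ 2 + Y ^ 2) with hS
    have hS0 : 0 < S := Real.sqrt_pos.2 h0
    have hSS : S ^ 2 = X ^ 2 + Y ^ 2 := Real.sq_sqrt h0.le
    have hUS : U ≤ 2 * S := by
      have hXS : X ≤ S := by
        rw [hS]
        exact Real.le_sqrt_of_sq_le (by nlinarith [sq_nonneg Y])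
      have hYS : Y ≤ S := by
        rw [hS]
        exact Real.le_sqrt_of_sq_le (by nlinarith [sq_nonneg X])
      linarith
    have hVS : V ≤ 2 * S := by
      have hXS : X ≤ S := by
        rw [hS]
        exact Real.le_sqrt_of_sq_le (by nlinarith [sq_nonneg Y])
      have hYS : Y ≤ S := by
        rw [hS]
        exact Real.le_sqrt_of_sq_le (by nlinarith [sq_nonneg X])
      linarith
    have hsp : 0 < S ^ (2 + (t : ℝ)) := Real.rpow_pos_of_pos hS0 _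
    have hdiv : ∀ Z : ℝ, 0 ≤ Z → (Z / S) ^ (2 + (t : ℝ)) = Z ^ (2 + (t : ℝ)) / S ^ (2 + (t : ℝ)) :=
      fun Z hZ => Real.div_rpow hZ hS0.le _
    have h3 := hR t ht0 htr (X / S) (Y / S) (U / S) (V / S) (by positivity) (by positivity)
      (by positivity) (by positivity)
      (by rw [div_pow, div_pow, ← add_div, hSS, div_self h0.ne'])
      (by rw [div_le_iff₀ hS0]; exact hUS) (by rw [div_le_iff₀ hS0]; exact hVS)
      (by
        rw [hdiv X hX0, hdiv Y hY0, hdiv U hU0, hdiv V hV0, ← add_div, ← add_div, ← mul_div_assoc]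
        exact div_le_div_of_nonneg_right h1 hsp.le)
      (by
        rw [hdiv X hX0, hdiv Y hY0, hdiv U hU0, hdiv V hV0, ← add_div, ← add_div, ← mul_div_assoc]
        exact div_le_div_of_nonneg_right h2 hsp.le)
    have h4 : U ^ 2 + V ^ 2 - 2 * X ^ 2 - 2 * Y ^ 2 =
        ((U / S) ^ 2 + (V / S) ^ 2 - 2) * (X ^ 2 + Y ^ 2) := by
      rw [div_pow, div_pow, hSS]
      field_simp
      ring
    rw [h4, abs_mul, abs_of_pos h0]
    exact mul_le_mul_of_nonneg_right h3 h0.le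

end Pool.Agent.Helper10.LS
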